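import Pool.Agent.H64.EV.Targets

/-!
# Adapted data for a direct factor with a nondegenerate subspace of middle degree, orthogonal case

Adapted from Pool/Agent/H33/NL/ADA.lean (helper33).
-/

set_option autoImplicit false
set_option linter.unusedSectionVars false

open Matrix Pool.Agent.H64.CC Pool.Agent.H2.NL Pool.Agent.H64.EV

namespace Pool.Agent.H21.EV

section form

variable {K : Type} [Field K] {I J : Type} [Fintype I] [DecidableEq I] [Fintype J] [DecidableEq J]

private theorem eta_omega (F : OForm K I) : F.η * F.ω = 1 := F.η_mul_ω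

private theorem omega_eta (F : OForm K I) : F.ω * F.η = 1 := F.ω_mul_η

/-- the orthogonal sum of two forms -/
private def sumF (F : OForm K I) (G : OForm K J) : OForm K (I ⊕ J) where
  o := Sum.elim F.o G.o
  st := Sum.map F.st G.st
  c := Sum.elim F.c G.c
  st_st := by
    rintro (a | a)
    · exact congrArg Sum.inl (F.st_st a)
    · exact congrArg Sum.inr (G.st_st a)
  o_st := by
    rintro (a | a)
    · exact F.o_st a
    · exact G.o_st a
  c_ne := by
    rintro (a | a)
    · exact F.c_ne a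
    · exact G.c_ne a
  c_st := by
    rintro (a | a)
    · exact F.c_st a
    · exact G.c_st a

private theorem eta_pos (F : OForm K I) {a b : I} (h : b = F.st a) : F.η a b = F.c a := by
  unfold OForm.η
  rw [Matrix.of_apply, if_pos h]

private theorem eta_neg (F : OForm K I) {a b : I} (h : b ≠ F.st a) : F.η a b = 0 := by
  unfold OForm.η
  rw [Matrix.of_apply, if_neg h]

private theorem sumF_eta (F : OForm K I) (G : OForm K J) :
    (sumF F G).η = Matrix.fromBlocks F.η 0 0 G.η := by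
  ext a b
  rcases a with a | a <;> rcases b with b | b
  · show (sumF F G).η (Sum.inl a) (Sum.inl b) = F.η a b
    by_cases h : b = F.st a
    · have h' : (Sum.inl b : I ⊕ J) = (sumF F G).st (Sum.inl a) := congrArg Sum.inl h
      rw [eta_pos _ h', eta_pos _ h]
      rfl
    · have h' : (Sum.inl b : I ⊕ J) ≠ (sumF F G).st (Sum.inl a) := fun h' =>
        h (Sum.inl_injective h')
      rw [eta_neg _ h', eta_neg _ h]
  · show (sumF F G).η (Sum.inl a) (Sum.inr b) = 0
    have h' : (Sum.inr b : I ⊕ J) ≠ (sumF F G).st (Sum.inl a) := fun h' => Sum.inr_ne_inl h'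
    rw [eta_neg _ h']
  · show (sumF F G).η (Sum.inr a) (Sum.inl b) = 0
    have h' : (Sum.inl b : I ⊕ J) ≠ (sumF F G).st (Sum.inr a) := fun h' => Sum.inl_ne_inr h'
    rw [eta_neg _ h']
  · show (sumF F G).η (Sum.inr a) (Sum.inr b) = G.η a b
    by_cases h : b = G.st a
    · have h' : (Sum.inr b : I ⊕ J) = (sumF F G).st (Sum.inr a) := congrArg Sum.inr h
      rw [eta_pos _ h', eta_pos _ h]
      rfl
    · have h' : (Sum.inr b : I ⊕ J) ≠ (sumF F G).st (Sum.inr a) := fun h' =>
        h (Sum.inr_injective h')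
      rw [eta_neg _ h', eta_neg _ h]

end form

section lin

variable {K : Type} [Field K] {N : ℕ}

private theorem anti (deg : Fin N → ℕ) (τ : ℕ) (η : Matrix (Fin N) (Fin N) K) (hτ : Even τ)
    (hη : ∀ a b, η a b ≠ 0 → deg a + deg b = 2 * τ)
    (hs : ∀ a b, η a b = ks K (decide (Odd (deg a))) (decide (Odd (deg b))) * η b a)
    (u : Fin N → K) (hu : ∀ a, u a ≠ 0 → deg a = τ) (x : Fin N → K) :
    x ⬝ᵥ (η *ᵥ u) = u ⬝ᵥ (η *ᵥ x) := by
  have h1 : x ⬝ᵥ (η *ᵥ u) = ∑ a, ∑ b, x a * (η a b * u b) := by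
    unfold dotProduct Matrix.mulVec dotProduct
    exact Finset.sum_congr rfl fun a _ => Finset.mul_sum _ _ _
  have h2 : u ⬝ᵥ (η *ᵥ x) = ∑ a, ∑ b, u b * (η b a * x a) := by
    unfold dotProduct Matrix.mulVec dotProduct
    rw [Finset.sum_comm]
    exact Finset.sum_congr rfl fun a _ => Finset.mul_sum _ _ _
  rw [h1, h2]
  refine Finset.sum_congr rfl fun a _ => ?_
  refine Finset.sum_congr rfl fun b _ => ?_
  by_cases hub : u b = 0
  · rw [hub]; ring
  · by_cases hba : η b a = 0
    · rw [hs a b, hba]; ring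
    · have hb := hu b hub
      have ha : deg a = τ := by
        have := hη b a hba
        omega
      rw [hs a b, ha, hb]
      have h3 : decide (Odd τ) = false := decide_eq_false (Nat.not_odd_iff_even.2 hτ)
      rw [h3]
      have h4 : ks K false false = 1 := by simp [ks]
      rw [h4]
      ring

private theorem dot_left {I J : Type} [Fintype I] [Fintype J] (j : Matrix I J K) (x : J → K)
    (w : I → K) : (j *ᵥ x) ⬝ᵥ w = x ⬝ᵥ (jᵀ *ᵥ w) := by
  rw [Matrix.dotProduct_mulVec, Matrix.vecMul_transpose]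

private theorem mv {I J : Type} [Fintype J] (M : Matrix I J K) (x : J → K) (a : I) :
    (M *ᵥ x) a = ∑ b, M a b * x b := rfl

private theorem dt {I : Type} [Fintype I] (x y : I → K) : x ⬝ᵥ y = ∑ a, x a * y a := rfl

end lin

theorem pf_ADO (hHYO : T_HYO) : T_ADO := by
  classical
  intro K _ _ N deg τ η ρ hτ hη hs hunit hρρ hadj hρd U hUd hUρ hUn
  -- the subspace U
  obtain ⟨n, j1, dg1, F1, hn, hj1, hj1s, hf1, hd1, ho1, hst1⟩ := hHYO K N deg τ η hτ hη hs U (by
    intro u hu d
    by_cases hd : d = τ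
    · have e : (fun a => if deg a = d then u a else 0) = u := by
        funext a
        by_cases ha : deg a = d
        · rw [if_pos ha]
        · rw [if_neg ha]
          by_contra h0
          exact ha ((hUd u hu a (Ne.symm h0)).trans hd.symm)
      rw [e]
      exact hu
    · have e : (fun a => if deg a = d then u a else 0) = (0 : Fin N → K) := by
        funext a
        by_cases ha : deg a = d
        · rw [if_pos ha]
          by_contra h0
          exact hd (ha.symm.trans (hUd u hu a h0))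
        · rw [if_neg ha]
          rfl
      rw [e]
      exact U.zero_mem) hUn
  have hanti : ∀ u ∈ U, ∀ x, x ⬝ᵥ (η *ᵥ u) = u ⬝ᵥ (η *ᵥ x) :=
    fun u hu x => anti deg τ η hτ hη hs u (hUd u hu) x
  have hj1r : ρ * j1 = j1 := by
    ext a b
    have h1 := congrFun (hUρ _ (hj1 b)) a
    exact h1
  -- the orthogonal complement
  obtain ⟨U', hU'⟩ : ∃ U' : Submodule K (Fin N → K), ∀ x, x ∈ U' ↔ (ρ *ᵥ x = x ∧
      ∀ u ∈ U, u ⬝ᵥ (η *ᵥ x) = 0) := by
    refine ⟨{ carrier := {x | ρ *ᵥ x = x ∧ ∀ u ∈ U, u ⬝ᵥ (η *ᵥ x) = 0}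
              add_mem' := ?_, zero_mem' := ?_, smul_mem' := ?_ }, fun x => Iff.rfl⟩
    · rintro x y ⟨hx1, hx2⟩ ⟨hy1, hy2⟩
      refine ⟨?_, fun u hu => ?_⟩
      · rw [Matrix.mulVec_add, hx1, hy1]
      · rw [Matrix.mulVec_add, dotProduct_add, hx2 u hu, hy2 u hu, add_zero]
    · refine ⟨?_, fun u hu => ?_⟩
      · rw [Matrix.mulVec_zero]
      · rw [Matrix.mulVec_zero, dotProduct_zero]
    · rintro c x ⟨hx1, hx2⟩
      refine ⟨?_, fun u hu => ?_⟩
      · rw [Matrix.mulVec_smul, hx1]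
      · rw [Matrix.mulVec_smul, dotProduct_smul, hx2 u hu, smul_zero]
  -- the decomposition of the range of ρ
  have hdec : ∀ y : Fin N → K, ρ *ᵥ y = y → ∃ x1 : Fin n → K, y - j1 *ᵥ x1 ∈ U' := by
    intro y hy
    refine ⟨F1.ω *ᵥ (j1ᵀ *ᵥ (η *ᵥ y)), ?_⟩
    rw [hU']
    have h1 : j1 *ᵥ (F1.ω *ᵥ (j1ᵀ *ᵥ (η *ᵥ y))) ∈ U := by
      have h2 : j1 *ᵥ (F1.ω *ᵥ (j1ᵀ *ᵥ (η *ᵥ y))) =
          ∑ b, (F1.ω *ᵥ (j1ᵀ *ᵥ (η *ᵥ y))) b • (fun a => j1 a b) := by
        funext a
        rw [Finset.sum_apply]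
        unfold Matrix.mulVec dotProduct
        refine Finset.sum_congr rfl fun b _ => ?_
        rw [Pi.smul_apply, smul_eq_mul]
        ring
      rw [h2]
      exact U.sum_mem fun b _ => U.smul_mem _ (hj1 b)
    constructor
    · rw [Matrix.mulVec_sub, hy, hUρ _ h1]
    · intro u hu
      obtain ⟨x, rfl⟩ := hj1s u hu
      rw [dot_left, Matrix.mulVec_sub, Matrix.mulVec_sub]
      have h3 : j1ᵀ *ᵥ (η *ᵥ (j1 *ᵥ (F1.ω *ᵥ (j1ᵀ *ᵥ (η *ᵥ y))))) = j1ᵀ *ᵥ (η *ᵥ y) := by
        rw [Matrix.mulVec_mulVec _ η j1, Matrix.mulVec_mulVec _ j1ᵀ (η * j1), ← Matrix.mul_assoc,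
          hf1, Matrix.mulVec_mulVec _ F1.η F1.ω, eta_omega, Matrix.one_mulVec]
      rw [h3, sub_self, dotProduct_zero]
  have hdegρ : ∀ (x : Fin N → K) (d : ℕ), ρ *ᵥ (fun a => if deg a = d then x a else 0) =
      fun a => if deg a = d then (ρ *ᵥ x) a else 0 := by
    intro x d
    funext a
    rw [mv, mv]
    by_cases ha : deg a = d
    · rw [if_pos ha]
      refine Finset.sum_congr rfl fun b _ => ?_
      by_cases hab : ρ a b = 0
      · rw [hab]; ring
      · rw [if_pos ((hρd a b hab).symm.trans ha)]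
    · rw [if_neg ha]
      refine Finset.sum_eq_zero fun b _ => ?_
      by_cases hab : ρ a b = 0
      · rw [hab]; ring
      · rw [if_neg fun h => ha ((hρd a b hab).trans h), mul_zero]
  obtain ⟨n', j2, dg2, F2, hn', hj2, hj2s, hf2, hd2, ho2, -⟩ := hHYO K N deg τ η hτ hη hs U' (by
    intro x hx d
    rw [hU'] at hx ⊢
    obtain ⟨hx1, hx2⟩ := hx
    constructor
    · rw [hdegρ, hx1]
    · intro u hu
      by_cases hd : d = τ
      · rw [← hx2 u hu, dt, dt]
        refine Finset.sum_congr rfl fun a _ => ?_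
        rw [mv, mv]
        by_cases hua : u a = 0
        · rw [hua, zero_mul, zero_mul]
        · congr 1
          refine Finset.sum_congr rfl fun b _ => ?_
          by_cases hab : η a b = 0
          · rw [hab, zero_mul, zero_mul]
          · have h1 := hη a b hab
            have h2 := hUd u hu a hua
            rw [if_pos (by omega)]
      · rw [dt]
        refine Finset.sum_eq_zero fun a _ => ?_
        rw [mv]
        by_cases hua : u a = 0
        · rw [hua, zero_mul]
        · have h3 : ∑ b, η a b * (if deg b = d then x b else 0) = 0 := by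
            refine Finset.sum_eq_zero fun b _ => ?_
            by_cases hab : η a b = 0
            · rw [hab, zero_mul]
            · have h1 := hη a b hab
              have h2 := hUd u hu a hua
              rw [if_neg (by omega), mul_zero]
          rw [h3, mul_zero]) (by
    intro x hx h0
    obtain ⟨hx1, hx2⟩ := (hU' x).1 hx
    have h1 : ∀ y : Fin N → K, ρ *ᵥ y = y → x ⬝ᵥ (η *ᵥ y) = 0 := by
      intro y hy
      obtain ⟨x1, hx3⟩ := hdec y hy
      have h2 : j1 *ᵥ x1 ∈ U := by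
        have h2 : j1 *ᵥ x1 = ∑ b, x1 b • (fun a => j1 a b) := by
          funext a
          rw [Finset.sum_apply]
          unfold Matrix.mulVec dotProduct
          refine Finset.sum_congr rfl fun b _ => ?_
          rw [Pi.smul_apply, smul_eq_mul]
          ring
        rw [h2]
        exact U.sum_mem fun b _ => U.smul_mem _ (hj1 b)
      have h3 := h0 _ hx3
      rw [Matrix.mulVec_sub, dotProduct_sub, hanti _ h2 x, hx2 _ h2] at h3
      simpa using h3
    have h4 : ∀ y : Fin N → K, x ⬝ᵥ (η *ᵥ y) = 0 := by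
      intro y
      have h5 := h1 (ρ *ᵥ y) (by rw [Matrix.mulVec_mulVec, hρρ])
      rw [Matrix.mulVec_mulVec, ← hadj, ← Matrix.mulVec_mulVec, ← dot_left, hx1] at h5
      exact h5
    have h6 : x ᵥ* η = 0 := by
      funext a
      have h7 := h4 (Pi.single a 1)
      rw [Matrix.dotProduct_mulVec, dotProduct_single_one] at h7
      exact h7
    obtain ⟨v, hv⟩ := hunit.exists_right_inv
    have h8 : (x ᵥ* η) ᵥ* v = x := by
      rw [Matrix.vecMul_vecMul, hv, Matrix.vecMul_one]
    rw [← h8, h6, Matrix.zero_vecMul])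
  have hj2r : ρ * j2 = j2 := by
    ext a b
    have h1 := congrFun ((hU' _).1 (hj2 b)).1 a
    exact h1
  have h12 : j1ᵀ * η * j2 = 0 := by
    ext b b'
    have h1 := ((hU' _).1 (hj2 b')).2 _ (hj1 b)
    rw [Matrix.mul_assoc]
    exact h1
  have h21 : j2ᵀ * η * j1 = 0 := by
    ext b b'
    have h1 := ((hU' _).1 (hj2 b)).2 _ (hj1 b')
    have h2 := hanti _ (hj1 b') (fun a => j2 a b)
    rw [h1] at h2
    rw [Matrix.mul_assoc]
    exact h2
  obtain ⟨j, hj⟩ : ∃ j, j = Matrix.fromCols j1 j2 := ⟨_, rfl⟩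
  obtain ⟨F, hF⟩ : ∃ F, F = sumF F1 F2 := ⟨_, rfl⟩
  have hform : jᵀ * η * j = F.η := by
    rw [hF, sumF_eta, hj, Matrix.transpose_fromCols, Matrix.fromRows_mul,
      Matrix.fromRows_mul_fromCols, hf1, hf2, h12, h21]
  have hρj : ρ * j = j := by
    rw [hj, Matrix.mul_fromCols, hj1r, hj2r]
  obtain ⟨i, hi⟩ : ∃ i, i = F.ω * jᵀ * η := ⟨_, rfl⟩
  have hij : i * j = 1 := by
    rw [hi, Matrix.mul_assoc, Matrix.mul_assoc, ← Matrix.mul_assoc jᵀ, hform, omega_eta]
  have hji1 : j * i * ρ = j * i := by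
    have h1 : jᵀ * η * ρ = jᵀ * η := by
      rw [Matrix.mul_assoc, ← hadj, ← Matrix.mul_assoc, ← Matrix.transpose_mul, hρj]
    rw [hi, Matrix.mul_assoc, Matrix.mul_assoc F.ω, Matrix.mul_assoc F.ω, h1]
  have hrange : ∀ y : Fin N → K, ∃ x, ρ *ᵥ y = j *ᵥ x := by
    intro y
    obtain ⟨x1, hx1⟩ := hdec (ρ *ᵥ y) (by rw [Matrix.mulVec_mulVec, hρρ])
    obtain ⟨x2, hx2⟩ := hj2s _ hx1
    refine ⟨Sum.elim x1 x2, ?_⟩
    rw [hj, Matrix.fromCols_mulVec]
    have e1 : (Sum.elim x1 x2 ∘ Sum.inl) = x1 := rfl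
    have e2 : (Sum.elim x1 x2 ∘ Sum.inr) = x2 := rfl
    rw [e1, e2, ← hx2]
    abel
  have hji2 : j * i * ρ = ρ := by
    have h1 : ∀ y : Fin N → K, (j * i * ρ) *ᵥ y = ρ *ᵥ y := by
      intro y
      obtain ⟨x, hx⟩ := hrange y
      rw [← Matrix.mulVec_mulVec, hx, ← Matrix.mulVec_mulVec, Matrix.mulVec_mulVec x i j, hij,
        Matrix.one_mulVec]
    ext a b
    have h2 := congrFun (h1 (Pi.single b 1)) a
    rw [Matrix.mulVec_single_one, Matrix.mulVec_single_one] at h2
    exact h2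
  have hji : j * i = ρ := hji1.symm.trans hji2
  have hdg : ∀ a b, j a b ≠ 0 → deg a = Sum.elim dg1 dg2 b := by
    intro a b
    rw [hj]
    rcases b with b | b
    · exact hd1 a b
    · exact hd2 a b
  have hst : ∀ b, Sum.elim dg1 dg2 b + Sum.elim dg1 dg2 (F.st b) = 2 * τ := by
    intro b
    have h1 : F.η b (F.st b) ≠ 0 := by
      unfold OForm.η
      rw [Matrix.of_apply, if_pos rfl]
      exact F.c_ne b
    rw [← hform, Matrix.mul_apply] at h1
    obtain ⟨z, -, hz⟩ := Finset.exists_ne_zero_of_sum_ne_zero h1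
    have hz1 := left_ne_zero_of_mul hz
    have hz2 := right_ne_zero_of_mul hz
    rw [Matrix.mul_apply] at hz1
    obtain ⟨y, -, hy⟩ := Finset.exists_ne_zero_of_sum_ne_zero hz1
    have hy1 : j y b ≠ 0 := left_ne_zero_of_mul hy
    have hy2 := right_ne_zero_of_mul hy
    rw [← hdg y b hy1, ← hdg z _ hz2]
    exact hη y z hy2
  refine ⟨n, n', ⟨⟨j, i, Sum.elim dg1 dg2, F, hn, ?_, hij, hji, hadj, hform, ?_, ?_, hdg, ?_, ?_,
    ?_, ?_⟩⟩⟩
  · have h1 : (i * j).rank ≤ i.rank := Matrix.rank_mul_le_left i j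
    have h2 : i.rank ≤ Fintype.card (Fin N) := Matrix.rank_le_card_width i
    rw [hij, Matrix.rank_one, Fintype.card_sum, Fintype.card_fin, Fintype.card_fin] at h1
    rw [Fintype.card_fin] at h2
    omega
  · rw [hi, ← Matrix.mul_assoc, ← Matrix.mul_assoc, eta_omega, Matrix.one_mul]
  · rw [Matrix.mul_assoc, Matrix.mul_assoc, ← Matrix.mul_assoc F.ω, ← hi, hji]
  · intro b a hba
    rw [hi, Matrix.mul_apply] at hba
    obtain ⟨y, -, hy⟩ := Finset.exists_ne_zero_of_sum_ne_zero hba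
    have hy1 := left_ne_zero_of_mul hy
    have hy2 := right_ne_zero_of_mul hy
    rw [Matrix.mul_apply] at hy1
    obtain ⟨x, -, hx⟩ := Finset.exists_ne_zero_of_sum_ne_zero hy1
    have hx1 := left_ne_zero_of_mul hx
    have hx2 : j y x ≠ 0 := right_ne_zero_of_mul hx
    have hx3 : x = F.st b := by
      by_contra hc
      apply hx1
      unfold OForm.ω
      rw [Matrix.of_apply, if_neg hc]
    have h1 := hst b
    have h2 := hη y a hy2
    have h3 := hdg y x hx2
    rw [hx3] at h3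
    omega
  · intro b
    rw [hF]
    rcases b with b | b
    · exact ho1 b
    · exact ho2 b
  · intro p
    rw [hF]
    have h1 : F1.η p (F1.st p) ≠ 0 := by
      unfold OForm.η
      rw [Matrix.of_apply, if_pos rfl]
      exact F1.c_ne p
    rw [← hf1, Matrix.mul_assoc, Matrix.mul_apply] at h1
    obtain ⟨a, -, ha⟩ := Finset.exists_ne_zero_of_sum_ne_zero h1
    have ha1 : j1 a p ≠ 0 := left_ne_zero_of_mul ha
    have h2 : deg a = τ := hUd _ (hj1 p) a ha1
    have h3 : dg1 p = τ := (hd1 a p ha1).symm.trans h2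
    exact congrArg Sum.inl (hst1 p h3)
  · intro p
    rw [hj]
    exact hj1 p

end Pool.Agent.H21.EV
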